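import Pool.Agent.Lib.MP_e63071_gt.CFib

/-!
# The geometric fibration conjecture is false for connected groups

There are connected closed transpose-stable subgroups `H ≤ G` of `GL(11, ℝ)` (so `G/H` is a
reductive homogeneous space) and a torsion-free group `Γ ≤ G`, acting properly discontinuously on
`G/H` with compact quotient, such that there is no smooth `Γ`-equivariant submersion, in particular
no smooth `Γ`-equivariant fibre bundle, from `G/H` onto any smooth manifold with a `Γ`-action all of
whose fibres are `G`-translates of the orbit `X = K · eH`.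

In the example, `G = SO₀(2,1)³ × ℝ²` (the group `GC`), and `H` (the group `HC`) is a copy of `ℝ²`
in it, the graph of the homomorphism that sends `(a, b)` to the hyperbolic elements with
parameters `a + b`, `a`, `b` in the three factors `SO₀(2,1)`. The group `Γ` is the graph of a
homomorphism from the cube of a cocompact surface group of `SO₀(2,1)` to `ℝ²`.
-/

set_option autoImplicit false

namespace Pool.Agent.Results.MP_e63071_gt.ConnectedDisproof

open Matrix Topology Pool.Agent.Lib.MP_e63071_gt
open scoped ContDiff Manifold

section

variable {n : Type} [Fintype n] [DecidableEq n]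

/-- A real linear reductive group: a subgroup of `GL(n, ℝ)` that is closed, stable under
transposition and has finitely many connected components. Its Cartan involution is
`g ↦ (gᵀ)⁻¹`, and a subgroup of it with the same three properties is reductive in it and preserved
by this involution. -/
structure IsLinearReductive (G : Subgroup (GL n ℝ)) : Prop where
  closed : IsClosed (G : Set (GL n ℝ))
  transpose : ∀ g ∈ G, ∃ h ∈ G, (h : Matrix n n ℝ) = (g : Matrix n n ℝ)ᵀ
  components : Finite (ConnectedComponents G)

/-- The matrix of an element of `G`. -/
def toMat (G : Subgroup (GL n ℝ)) (g : G) : Matrix n n ℝ := ((g : GL n ℝ) : Matrix n n ℝ)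

/-- The group `K` of all `k` in `G` with `kᵀ k = 1`, that is, the fixed group of the Cartan
involution `g ↦ (gᵀ)⁻¹` of `G`. -/
def cartanFixed (G : Subgroup (GL n ℝ)) : Set G :=
  {k | (toMat G k)ᵀ * toMat G k = 1}

end

section

variable {S : Type} [Group S] [TopologicalSpace S]

/-- The set `X = K · eH` in `S/H`. -/
def baseOrbit (H : Subgroup S) (K : Set S) : Set (S ⧸ H) :=
  (fun k => QuotientGroup.mk k) '' K

/-- `Γ` is torsion-free and acts properly discontinuously and cocompactly on `S/H` (by left
multiplication). -/
structure IsCompactQuotient (H Γ : Subgroup S) : Prop where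
  torsionFree : ∀ γ ∈ Γ, ∀ m : ℕ, 0 < m → γ ^ m = 1 → γ = 1
  properlyDiscontinuous : ProperlyDiscontinuousSMul Γ (S ⧸ H)
  cocompact : CompactSpace (MulAction.orbitRel.Quotient Γ (S ⧸ H))

variable {n : Type}

/-- The map `π : S/H → N` is smooth. Here `S` is a closed group of matrices, with the inclusion
`m` into the space of all matrices; a map `f` from a finite-dimensional space to `S` is smooth if
and only if all its matrix entries are smooth, and `π` is smooth if and only if `π ∘ f` is smooth
for all such `f` (where `π` is composed with the projection of `S` to `S/H`). -/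
def IsSmoothMap (m : S → Matrix n n ℝ) (H : Subgroup S) (E : Type) {N : Type}
    [NormedAddCommGroup E] [NormedSpace ℝ E] [TopologicalSpace N] [ChartedSpace E N]
    (π : S ⧸ H → N) : Prop :=
  ∀ (F : Type) [NormedAddCommGroup F] [NormedSpace ℝ F] [FiniteDimensional ℝ F] (f : F → S),
    (∀ i j, ContDiff ℝ ∞ (fun p => m (f p) i j)) →
      ContMDiff 𝓘(ℝ, F) 𝓘(ℝ, E) ∞ (fun p => π (QuotientGroup.mk (f p)))

/-- Through each point `x` of `S/H` passes a smooth local section of `π : S/H → N`, of the form
`y ↦ s y · H` with a map `s` to `S` whose matrix entries are smooth at `π x`. The smooth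
submersions, in particular the smooth fibre bundles, have this property. -/
def HasSmoothSections (m : S → Matrix n n ℝ) (H : Subgroup S) (E : Type) {N : Type}
    [NormedAddCommGroup E] [NormedSpace ℝ E] [TopologicalSpace N] [ChartedSpace E N]
    (π : S ⧸ H → N) : Prop :=
  ∀ x : S ⧸ H, ∃ s : N → S,
    (∀ i j, ContMDiffAt 𝓘(ℝ, E) 𝓘(ℝ, ℝ) ∞ (fun y => m (s y) i j) (π x)) ∧
    (∀ᶠ y in 𝓝 (π x), π (QuotientGroup.mk (s y)) = y) ∧
    (QuotientGroup.mk (s (π x)) : S ⧸ H) = x

/-- `π : S/H → N` is a smooth `Γ`-equivariant submersion, each fibre of which is an `S`-translate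
of `X`. -/
structure IsSmoothGeometricFibration (m : S → Matrix n n ℝ) (H : Subgroup S) (K : Set S)
    (Γ : Subgroup S) (E : Type) {N : Type} [NormedAddCommGroup E] [NormedSpace ℝ E]
    [TopologicalSpace N] [ChartedSpace E N] [MulAction Γ N] (π : S ⧸ H → N) : Prop where
  smooth : IsSmoothMap m H E π
  submersion : HasSmoothSections m H E π
  equivariant : ∀ (γ : Γ) (x : S ⧸ H), π (γ • x) = γ • π x
  fibre : ∀ y : N, ∃ g : S, π ⁻¹' {y} = (fun x => g • x) '' baseOrbit H K

/-- There are a smooth manifold `N` (without boundary, modelled on a normed space `E`) with an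
action of `Γ` and a smooth `Γ`-equivariant submersion `S/H → N`, each fibre of which is an
`S`-translate of `X`. -/
def HasSmoothGeometricFibration (m : S → Matrix n n ℝ) (H : Subgroup S) (K : Set S)
    (Γ : Subgroup S) : Prop :=
  ∃ (E N : Type) (_ : NormedAddCommGroup E) (_ : NormedSpace ℝ E) (_ : TopologicalSpace N)
    (_ : ChartedSpace E N) (_ : IsManifold 𝓘(ℝ, E) ∞ N) (_ : MulAction Γ N) (π : S ⧸ H → N),
    IsSmoothGeometricFibration m H K Γ E π

/-- For every torsion-free subgroup `Γ` of `S` acting properly discontinuously and cocompactly on
`S/H` there is a smooth `Γ`-equivariant submersion from `S/H` to a smooth manifold with an action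
of `Γ`, each fibre of which is an `S`-translate of `X = K · eH`. -/
def SatisfiesConjecture (m : S → Matrix n n ℝ) (H : Subgroup S) (K : Set S) : Prop :=
  ∀ Γ : Subgroup S, IsCompactQuotient H Γ → HasSmoothGeometricFibration m H K Γ

end

/-- A statement implied by the geometric fibration conjecture for connected groups (the
conjecture asks in addition that the base be the universal cover of a closed aspherical manifold
with fundamental group `Γ`): the property `SatisfiesConjecture` for all reductive homogeneous
spaces `G/H` with `G` and `H` connected, with `K` the fixed group of the Cartan involution of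
`G`. -/
def ConnectedFibrationConjecture : Prop :=
  ∀ (n : Type) [Fintype n] [DecidableEq n] (G H : Subgroup (GL n ℝ)),
    IsLinearReductive G → ConnectedSpace G → IsLinearReductive H → ConnectedSpace H → H ≤ G →
      SatisfiesConjecture (toMat G) (H.subgroupOf G) (cartanFixed G)

/-- The geometric fibration conjecture is false, even for connected groups: there are a
reductive homogeneous space `G/H` with `G` and `H` connected and a torsion-free subgroup `Γ` of
`G` acting on it properly discontinuously and cocompactly such that `G/H` admits no smooth
`Γ`-equivariant submersion to any smooth manifold with an action of `Γ` whose fibres are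
translates of `X`. -/
theorem result : ¬ ConnectedFibrationConjecture := by
  intro hconj
  obtain ⟨E, N, _, _, _, _, _, _, π, h⟩ := hconj J11 GC HC
    ⟨isClosed_GC, transpose_GC, finite_components_of_connected connected_GC⟩ connected_GC
    ⟨isClosed_HC, transpose_HC, finite_components_of_connected connected_HC⟩ connected_HC
    HC_le_GC GmC ⟨GmC_torsionfree, GmC_pd, GmC_compact⟩
  have hX : baseOrbit (HC.subgroupOf GC) (cartanFixed GC) = XXC := by
    ext x
    constructor
    · rintro ⟨k, hk, rfl⟩
      exact ⟨k, hk, rfl⟩
    · rintro ⟨k, hk, rfl⟩
      exact ⟨k, hk, rfl⟩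
  obtain ⟨h1, h2, h3, h4⟩ := h
  rw [hX] at h4
  obtain ⟨V, F⟩ := famC_of_fibration h3 h4
    (h1 Par (fun q => mkC (HH3 q) 0) smooth_mkC_HH3) h2
  exact F.contra

end Pool.Agent.Results.MP_e63071_gt.ConnectedDisproof
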