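import Pool.Agent.Lib.MP_e63071_gt.Fibration

/-!
# The geometric fibration conjecture is false

There are closed, transpose-stable subgroups `H ≤ G` of `GL(6, ℝ)` with finitely many
components (so `G/H` is a reductive homogeneous space) and a torsion-free group `Γ ≤ G`,
acting properly discontinuously on `G/H` with compact quotient, such that there is no
`Γ`-equivariant fibre bundle from `G/H` to any Hausdorff space with a `Γ`-action all of whose
fibres are `G`-translates of the orbit `X = K · eH`.

In the example, `G = SO₀(2,1) × (ℝ² ⋊ ℤ/3)` (the group `GG`), and `H` (the group `HH`) is a copy of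
`ℝ²` in it: the graph of a homomorphism from `ℝ²` to the hyperbolic one-parameter group of
`SO₀(2,1)`. The group `Γ` is the graph of a homomorphism from a cocompact surface group of
`SO₀(2,1)` to `ℝ²`.
-/

set_option autoImplicit false

namespace Pool.Agent.Results.MP_e63071_gt.Disproof

open Matrix Pool.Agent.Lib.MP_e63071_gt

section

variable {n : Type} [Fintype n] [DecidableEq n]

/-- A real linear reductive group: a subgroup of `GL(n, ℝ)` that is closed, stable under
transposition and has finitely many connected components. Its Cartan involution is
`g ↦ (gᵀ)⁻¹`, and a subgroup of it with the same three properties is reductive in it and preserved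
by this involution. -/
structure IsLinearReductive (G : Subgroup (GL n ℝ)) : Prop where
  closed : IsClosed (G : Set (GL n ℝ))
  transpose : ∀ g ∈ G, ∃ h ∈ G, (h : Matrix n n ℝ) = (g : Matrix n n ℝ)ᵀ
  components : Finite (ConnectedComponents G)

/-- The group `K` of all `k` in `G` with `kᵀ k = 1`, that is, the fixed group of the Cartan
involution `g ↦ (gᵀ)⁻¹` of `G`. -/
def cartanFixed (G : Subgroup (GL n ℝ)) : Set G :=
  {k | ((k : GL n ℝ) : Matrix n n ℝ)ᵀ * ((k : GL n ℝ) : Matrix n n ℝ) = 1}

end

section

variable {S : Type} [Group S] [TopologicalSpace S]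

/-- The set `X = K · eH` in `S/H`. -/
def baseOrbit (H : Subgroup S) (K : Set S) : Set (S ⧸ H) :=
  (fun k => QuotientGroup.mk k) '' K

/-- `Γ` is torsion-free and acts properly discontinuously and cocompactly on `S/H` (by left
multiplication). -/
structure IsCompactQuotient (H Γ : Subgroup S) : Prop where
  torsionFree : ∀ γ ∈ Γ, ∀ m : ℕ, 0 < m → γ ^ m = 1 → γ = 1
  properlyDiscontinuous : ProperlyDiscontinuousSMul Γ (S ⧸ H)
  cocompact : CompactSpace (MulAction.orbitRel.Quotient Γ (S ⧸ H))

/-- `π : S/H → N` is a `Γ`-equivariant fibre bundle with fibre `X`, each fibre of which is an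
`S`-translate of `X`. Smoothness is not required. -/
structure IsGeometricFibration (H : Subgroup S) (K : Set S) (Γ : Subgroup S)
    {N : Type} [TopologicalSpace N] [MulAction Γ N] (π : S ⧸ H → N) : Prop where
  equivariant : ∀ (γ : Γ) (x : S ⧸ H), π (γ • x) = γ • π x
  locallyTrivial : ∀ y : N, ∃ e : Bundle.Trivialization (baseOrbit H K) π, y ∈ e.baseSet
  fibre : ∀ y : N, ∃ g : S, π ⁻¹' {y} = (fun x => g • x) '' baseOrbit H K

/-- There are a Hausdorff space `N` with an action of `Γ` and a `Γ`-equivariant fibre bundle
`S/H → N` each fibre of which is an `S`-translate of `X`. -/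
def HasGeometricFibration (H : Subgroup S) (K : Set S) (Γ : Subgroup S) : Prop :=
  ∃ (N : Type) (_ : TopologicalSpace N) (_ : T2Space N) (_ : MulAction Γ N) (π : S ⧸ H → N),
    IsGeometricFibration H K Γ π

/-- For every torsion-free subgroup `Γ` of `S` acting properly discontinuously and cocompactly on
`S/H` there is a `Γ`-equivariant fibre bundle from `S/H` to a Hausdorff space with an action of
`Γ`, each fibre of which is an `S`-translate of `X = K · eH`. -/
def SatisfiesConjecture (H : Subgroup S) (K : Set S) : Prop :=
  ∀ Γ : Subgroup S, IsCompactQuotient H Γ → HasGeometricFibration H K Γ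

end

/-- A statement implied by the geometric fibration conjecture (which asks in addition that the
bundle be smooth and that its base be the universal cover of a closed aspherical manifold with
fundamental group `Γ`): the property `SatisfiesConjecture` for all reductive homogeneous spaces
`G/H`, with `K` the fixed group of the Cartan involution of `G`. -/
def WeakFibrationConjecture : Prop :=
  ∀ (n : Type) [Fintype n] [DecidableEq n] (G H : Subgroup (GL n ℝ)),
    IsLinearReductive G → IsLinearReductive H → H ≤ G →
      SatisfiesConjecture (H.subgroupOf G) (cartanFixed G)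

/-- The geometric fibration conjecture is false, even in its weak form: there are a reductive
homogeneous space `G/H` and a torsion-free subgroup `Γ` of `G` acting on it properly
discontinuously and cocompactly such that `G/H` admits no `Γ`-equivariant fibre bundle over any
Hausdorff space with an action of `Γ` whose fibres are translates of `X`. -/
theorem result : ¬ WeakFibrationConjecture := by
  intro hconj
  obtain ⟨N, _, _, _, π, h⟩ := hconj I6 GG HH
    ⟨isClosed_GG, transpose_GG, finite_components_GG⟩
    ⟨isClosed_HH, transpose_HH, finite_components_HH⟩ HH_le_GG Gm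
    ⟨Gm_torsionfree, Gm_pd, Gm_compact⟩
  have hX : baseOrbit (HH.subgroupOf GG) (cartanFixed GG) = XX := by
    ext x
    constructor
    · rintro ⟨k, hk, rfl⟩
      exact ⟨k, hk, rfl⟩
    · rintro ⟨k, hk, rfl⟩
      exact ⟨k, hk, rfl⟩
  obtain ⟨h1, h2, h3⟩ := h
  rw [hX] at h2 h3
  exact no_fibration π h1 h2 h3

end Pool.Agent.Results.MP_e63071_gt.Disproof
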